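import Pool.Agent.helper70.M8.ChkF

set_option autoImplicit false

/-!
# Integer checker, analytic part: signed numbers, compact layout

Third version of the tests of `Chk` and `ChkF`: the variable `s` (parameter of `t ∈ [a,b]`) is
packed with digits of `B` bits, the variable `w` (parameter of `u ∈ [lo,hi]`) with digits of
`B (m+1)` bits; numbers have a sign and an absolute value. The rows of the tables with weights are
linear combinations of the rows of the main table.
-/

namespace Oct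

/-! ## signed numbers -/

/-- signed number: `s = true` means negative -/
structure SM where
  s : Bool
  v : ℕ

/-- value -/
def SM.val (x : SM) : ℤ := if x.s then -(x.v : ℤ) else (x.v : ℤ)

/-- `a - b` -/
noncomputable def ssub (a b : ℕ) : SM :=
  Bool.rec (motive := fun _ => SM) ⟨true, Nat.sub b a⟩ ⟨false, Nat.sub a b⟩ (Nat.ble b a)

/-- sum -/
noncomputable def sadd (x y : SM) : SM :=
  Bool.rec (motive := fun _ => SM)
    (Bool.rec (motive := fun _ => SM) ⟨false, Nat.add x.v y.v⟩ (ssub x.v y.v) y.s)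
    (Bool.rec (motive := fun _ => SM) (ssub y.v x.v) ⟨true, Nat.add x.v y.v⟩ y.s) x.s

/-- opposite -/
noncomputable def sneg (x : SM) : SM := ⟨not x.s, x.v⟩

/-- product with a natural number -/
noncomputable def smulN (k : ℕ) (x : SM) : SM := ⟨x.s, Nat.mul k x.v⟩

/-- `z c` -/
noncomputable def ofZ (z : ℤ) (c : ℕ) : SM :=
  Int.rec (motive := fun _ => SM) (fun n => ⟨false, Nat.mul n c⟩)
    (fun n => ⟨true, Nat.mul (Nat.succ n) c⟩) z

/-- `(a + b 2^S) x` -/
noncomputable def mulG (a b S : ℕ) (x : SM) : SM := ⟨x.s, mulS a b S x.v⟩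

/-! ## rows -/

/-- `∑ᵢ l[i] Aⁱ C[i]`, `A = a + b 2^S` -/
noncomputable def vrG (a b S : ℕ) (l : List ℤ) : List ℕ → SM :=
  List.rec (motive := fun _ => List ℕ → SM) (fun _ => ⟨false, 0⟩)
    (fun g _ ih CP => List.rec (motive := fun _ => SM) ⟨false, 0⟩
      (fun c cs _ => sadd (ofZ g c) (mulG a b S (ih cs))) CP) l

/-- rows of a table for `t ∈ [a,b]`; `CP = [(1+2^B)^m, ..., 1]` -/
noncomputable def vsG (B : ℕ) (CP : List ℕ) (G : List (List ℤ)) (a b : ℕ) : List SM :=
  List.rec (motive := fun _ => List SM) [] (fun l _ ih => vrG a b B l CP :: ih) G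

/-- rows of `∂G/∂u`, from the rows of `G`; the first row has number `j` -/
noncomputable def duG (V : List SM) : ℕ → List SM :=
  List.rec (motive := fun _ => ℕ → List SM) (fun _ => [])
    (fun v _ ih j => smulN j v :: ih (Nat.succ j)) V

/-- `∑ⱼ W[j] Aʲ`, `A = lo + hi 2^S` -/
noncomputable def horG (lo hi S : ℕ) (W : List SM) : SM :=
  List.rec (motive := fun _ => SM) ⟨false, 0⟩ (fun w _ ih => sadd w (mulG lo hi S ih)) W

/-- `∑ⱼ V[j] yʲ` -/
noncomputable def horY (y : ℕ) (V : List SM) : SM :=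
  List.rec (motive := fun _ => SM) ⟨false, 0⟩ (fun v _ ih => sadd v (smulN y ih)) V

/-- `∑ⱼ V[j] (L - 2^S)ʲ` -/
noncomputable def horL (L S : ℕ) (V : List SM) : SM :=
  List.rec (motive := fun _ => SM) ⟨false, 0⟩
    (fun v _ ih => sadd v (sadd (smulN L ih) ⟨not ih.s, Nat.shiftLeft ih.v S⟩)) V

/-- `(1 + 2^S)^(n-j) V[j]` -/
noncomputable def zipG (S : ℕ) (V : List SM) : ℕ → List SM :=
  List.rec (motive := fun _ => ℕ → List SM) (fun _ => [])
    (fun v _ ih n => ⟨v.s, shP S v.v n⟩ :: ih (Nat.pred n)) V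

/-- `2 j V[j] - 2 o (j+1) V[j+1]` (`j`: number of the first row) -/
noncomputable def eG (o : ℕ) (V : List SM) : ℕ → List SM :=
  List.rec (motive := fun _ => ℕ → List SM) (fun _ => [])
    (fun v V' ih j => sadd (smulN (Nat.mul 2 j) v)
      (List.rec (motive := fun _ => SM) ⟨false, 0⟩
        (fun v' _ _ => sneg (smulN (Nat.mul (Nat.mul 2 o) (Nat.succ j)) v')) V') ::
        ih (Nat.succ j)) V

/-- `E[j] - k V[j]` -/
noncomputable def wG (k : ℕ) (E : List SM) : List SM → List SM :=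
  List.rec (motive := fun _ => List SM → List SM) (fun _ => [])
    (fun e _ ih V => List.rec (motive := fun _ => List SM) []
      (fun v V' _ => sadd e (sneg (smulN k v)) :: ih V') V) E

/-! ## tests -/

/-- the value is `≥ o` digit by digit (`σ = true`), or `≤ -o` -/
noncomputable def tstG (o ms : ℕ) (σ : Bool) (x : SM) : Bool :=
  Bool.rec (motive := fun _ => Bool) x.s (not x.s) σ && Nat.ble o x.v &&
    Nat.beq (Nat.land (Nat.sub x.v o) ms) 0

/-- constants -/
structure Kc where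
  B : ℕ
  m : ℕ
  n : ℕ
  S : ℕ
  /-- `[(1+2^B)^m, ..., 1]` -/
  CP : List ℕ
  /-- `(1+2^B)^m` -/
  o2 : ℕ
  /-- `(1+2^B)^m (1+2^S)^n` -/
  o1 : ℕ
  /-- `(1+2^B)^n` -/
  o0 : ℕ
  ms1 : ℕ
  ms2 : ℕ
  ms0 : ℕ

noncomputable def kcOf (B m n : ℕ) : Kc where
  B := B
  m := m
  n := n
  S := B * (m + 1)
  CP := pw (1 + 2 ^ B) m
  o2 := (1 + 2 ^ B) ^ m
  o1 := (1 + 2 ^ B) ^ m * (1 + 2 ^ (B * (m + 1))) ^ n
  o0 := (1 + 2 ^ B) ^ n
  ms1 := mask B ((m + 1) * (n + 1))
  ms2 := mask B (m + 1)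
  ms0 := mask B (n + 1)

/-- rows used in a column -/
structure RowsG where
  /-- rows -/
  V : List SM
  /-- rows for boxes -/
  Z : List SM
  /-- rows of `∂/∂u` -/
  U : List SM
  /-- rows of `∂/∂t` -/
  T : List SM
  /-- rows `2 (u - o) ∂/∂u` -/
  E : List SM

noncomputable def rowsG (k : Kc) (G DT : List (List ℤ)) (o : ℕ) (a b : ℕ) (V : List SM) :
    RowsG where
  V := V
  Z := zipG k.S V k.n
  U := zipG k.S (duG V.tail 1) k.n
  T := zipG k.S (vsG k.B k.CP DT a b) k.n
  E := zipG k.S (eG o V 0) k.n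

/-- integers `G[j](a)` as rows -/
noncomputable def atG (G : List (List ℤ)) (a : ℕ) : List SM :=
  List.rec (motive := fun _ => List SM) []
    (fun l _ ih => List.rec (motive := fun _ => SM) ⟨false, 0⟩
      (fun g _ jh => sadd (ofZ g 1) (smulN a jh)) l :: ih) G

/-- test on a box `[a,b] × [lo,hi]` -/
noncomputable def tst2 (k : Kc) (W : List SM) (σ : Bool) (lo hi : ℕ) : Bool :=
  tstG k.o1 k.ms1 σ (horG lo hi k.S W)

/-- test on `[a,b] × {y}` -/
noncomputable def tst1 (k : Kc) (V : List SM) (σ : Bool) (y : ℕ) : Bool :=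
  tstG k.o2 k.ms2 σ (horY y V)

/-- test on `{a} × [lo,hi]`, rows of integers -/
noncomputable def tst0 (k : Kc) (A : List SM) (σ : Bool) (lo hi : ℕ) : Bool :=
  tstG k.o0 k.ms0 σ (horG lo hi k.B (zipG k.B A k.n))

/-- sign at a point -/
noncomputable def tstP (A : List SM) (σ : Bool) (y : ℕ) : Bool :=
  tstG 1 0 σ (horY y A)

/-- test of the condition `UpC` -/
noncomputable def upG (k : Kc) (R : RowsG) (o : ℕ) (w : ℕ) (s : Bool) (lo hi : ℕ) : Bool :=
  match w with
  | 0 => tst2 k R.U s lo hi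
  | j + 1 => Nat.ble j 15 && ((Nat.blt o lo && tst2 k (wG (j + 1) R.E R.Z) s lo hi) ||
      (Nat.blt hi o && tst2 k (wG (j + 1) R.E R.Z) (!s) lo hi))

/-- test of the condition `CvC`; `A`: integer rows of the side -/
noncomputable def cvG (k : Kc) (A : List SM) (o : ℕ) (w w' : ℕ) (s : Bool) (lo hi : ℕ) : Bool :=
  match w with
  | 0 => tst0 k (duG (duG A.tail 1).tail 1) s lo hi
  | _ + 1 => Nat.ble w 16 && Nat.ble w' 16 && (Nat.blt o lo || Nat.blt hi o) &&
      tst0 k (wG w' (eG o (wG w (eG o A 0) A) 0) (wG w (eG o A 0) A)) s lo hi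

/-- test of a box; `Aa`, `Ab`: rows of the sides -/
noncomputable def boxG (k : Kc) (R : RowsG) (Aa Ab : List SM) (o : ℕ) (um : ℕ) (b : Box) : Bool :=
  let c := tn b.c
  let s := tn b.s
  let lo := Nat.sub c s
  let hi := Nat.add c s
  (nn b.c && nn b.s && Nat.ble s c && Nat.ble hi um) &&
  match b.ty with
  | 0 => (b.sl == b.sh) && tst2 k R.Z b.sl lo hi
  | 1 => (b.sl == !b.sh) && upG k R o b.k b.sh lo hi && tst1 k R.V b.sl lo &&
      tst1 k R.V b.sh hi
  | 2 => (b.sl == b.sh) && tst1 k R.V b.sl lo && tst1 k R.V b.sh hi &&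
      tst0 k Aa b.sl lo hi && tst2 k R.T (!b.sl) lo hi &&
      cvG k Ab o b.k b.k' b.sl lo hi && tstP Ab (!b.sl) c
  | 3 => (b.sl == b.sh) && tst1 k R.V b.sl lo && tst1 k R.V b.sh hi &&
      tst0 k Ab b.sl lo hi && tst2 k R.T b.sl lo hi &&
      cvG k Aa o b.k b.k' b.sl lo hi && tstP Aa (!b.sl) c
  | _ => false

/-- test of the two unbounded parts -/
noncomputable def capG (k : Kc) (V : List SM) (um : ℕ) (sp : Bool) (L H : ℕ) : Bool :=
  Nat.ble H um && Nat.ble L um &&
  tstG k.o2 k.ms1 sp (horG H 1 k.S V) && tstG k.o2 k.ms1 sp (horL L k.S V)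

/-- analytic test of a column -/
noncomputable def colG (k : Kc) (ch : Chart) (G DT : List (List ℤ)) (o : ℕ)
    (tm um : ℕ) (sp : Bool) (c : Column) : Bool :=
  let X := tn c.X
  let R := tn c.R
  let a := Nat.sub X R
  let b := Nat.add X R
  let V := vsG k.B k.CP G a b
  decide (c.ch = ch) && nn c.X && nn c.R && Nat.ble R X && Nat.ble b tm &&
  (nn c.L && nn c.H && capG k V um sp (tn c.L) (tn c.H)) &&
  c.bx.all (boxG k (rowsG k G DT o a b V) (atG G a) (atG G b) o um)

/-- tests for the table of a chart: all the tables used have coefficients bounded by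
`(4 n + 16)^2` times those of `G` -/
def ctxG (B m n : ℕ) (ch : Chart) (G : List (List ℤ)) (tm um : ℕ) : Bool :=
  decide (G.length ≤ n + 1) && G.all (fun l => decide (l.length ≤ m + 1)) &&
    decide (2 ^ (m + n) * ((4 * n + 16) ^ 2 * absT G tm um + 1) < 2 ^ (B - 1)) && decide (1 ≤ B) &&
    decide (1 ≤ um) && decide (1 ≤ tm) && decide (m ≤ (4 * n + 16) ^ 2) &&
    decide (0 < ch.al) && decide (0 ≤ ch.o) && decide (ch.o ≤ um)

end Oct
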