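import Pool.Agent.helper70.M8.Chk
import Pool.Agent.helper70.M9.ChkG

set_option autoImplicit false

namespace Oct

/-- the rows `V` are the values of the rows of the table `H` for `t ∈ [a,b]`, packed -/
def RowsOf (B m : ℕ) (H : List (List ℤ)) (a b : ℕ) (V : List SM) : Prop :=
  V.map SM.val = H.map (fun l => homP (R := ℤ) m l (a + b * 2 ^ B) (1 + 2 ^ B))

/-- the polynomial `∑ⱼ yʲ G[j]` in `t` -/
def rowY (y : ℤ) (G : List (List ℤ)) : List ℤ :=
  G.foldr (fun l r => addP l (smulP y r)) []

end Oct
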