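import Pool.Agent.helper70.M8.Chk
import Pool.Agent.helper70.M9.ChkG
import Pool.Agent.helper70.M9.Rows

set_option autoImplicit false

/-!
# OCT9-G1a: values of signed rows
-/

namespace Oct

namespace G1a

theorem ssub_val (a b : ℕ) : (ssub a b).val = (a : ℤ) - b := by
  unfold ssub
  by_cases h : b ≤ a
  · have : Nat.ble b a = true := by rwa [Nat.ble_eq]
    rw [this]
    show ((Nat.sub a b : ℕ) : ℤ) = _
    exact Nat.cast_sub h
  · have : Nat.ble b a = false := by
      rw [Bool.eq_false_iff]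
      intro h'
      rw [Nat.ble_eq] at h'
      exact h h'
    rw [this]
    show -((Nat.sub b a : ℕ) : ℤ) = _
    have h' : a ≤ b := by omega
    have : ((Nat.sub b a : ℕ) : ℤ) = (b : ℤ) - a := Nat.cast_sub h'
    rw [this]
    ring

theorem sadd_val (x y : SM) : (sadd x y).val = x.val + y.val := by
  obtain ⟨xs, xv⟩ := x
  obtain ⟨ys, yv⟩ := y
  cases xs <;> cases ys
  · show ((Nat.add xv yv : ℕ) : ℤ) = (xv : ℤ) + yv
    exact Nat.cast_add _ _
  · show (ssub xv yv).val = (xv : ℤ) + -(yv : ℤ)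
    rw [ssub_val]
    ring
  · show (ssub yv xv).val = -(xv : ℤ) + yv
    rw [ssub_val]
    ring
  · show -((Nat.add xv yv : ℕ) : ℤ) = -(xv : ℤ) + -(yv : ℤ)
    have : ((Nat.add xv yv : ℕ) : ℤ) = (xv : ℤ) + yv := Nat.cast_add _ _
    rw [this]
    ring

theorem sneg_val (x : SM) : (sneg x).val = -x.val := by
  obtain ⟨xs, xv⟩ := x
  cases xs
  · rfl
  · show ((xv : ℕ) : ℤ) = -(-(xv : ℤ))
    ring

theorem smulN_val (k : ℕ) (x : SM) : (smulN k x).val = k * x.val := by
  obtain ⟨xs, xv⟩ := x
  have h : ((Nat.mul k xv : ℕ) : ℤ) = (k : ℤ) * xv := Nat.cast_mul _ _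
  cases xs
  · exact h
  · show -((Nat.mul k xv : ℕ) : ℤ) = k * -(xv : ℤ)
    rw [h]
    ring

theorem ofZ_val (z : ℤ) (c : ℕ) : (ofZ z c).val = z * c := by
  cases z with
  | ofNat n =>
    show ((Nat.mul n c : ℕ) : ℤ) = _
    exact Nat.cast_mul _ _
  | negSucc n =>
    show -((Nat.mul (Nat.succ n) c : ℕ) : ℤ) = _
    have h : ((Nat.mul (Nat.succ n) c : ℕ) : ℤ) = ((Nat.succ n : ℕ) : ℤ) * c := Nat.cast_mul _ _
    rw [h, Int.negSucc_eq]
    push_cast
    ring

theorem mulS_val (a b S x : ℕ) : ((mulS a b S x : ℕ) : ℤ) = ((a : ℤ) + b * 2 ^ S) * x := by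
  have h : mulS a b S x = a * x + (b * x) * 2 ^ S := by
    show a * x + (b * x) <<< S = _
    rw [Nat.shiftLeft_eq]
  rw [h]
  push_cast
  ring

theorem mulG_val (a b S : ℕ) (x : SM) :
    (mulG a b S x).val = ((a : ℤ) + b * 2 ^ S) * x.val := by
  obtain ⟨xs, xv⟩ := x
  cases xs
  · exact mulS_val a b S xv
  · show -((mulS a b S xv : ℕ) : ℤ) = ((a : ℤ) + b * 2 ^ S) * -(xv : ℤ)
    rw [mulS_val]
    ring

theorem zero_val : (⟨false, 0⟩ : SM).val = 0 := rfl

theorem pw_succ (c n : ℕ) : pw c (n + 1) = c ^ (n + 1) :: pw c n := by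
  have key : ∀ n, ∃ t, pw c n = c ^ n :: t := by
    intro n
    induction n with
    | zero => exact ⟨[], by simp [pw]⟩
    | succ n ih =>
      obtain ⟨t, ht⟩ := ih
      refine ⟨pw c n, ?_⟩
      show List.rec (motive := fun _ => List ℕ) [] (fun a _ _ => (Nat.mul c a) :: pw c n) (pw c n) = _
      rw [ht]
      show Nat.mul c (c ^ n) :: _ = _
      rw [pow_succ']
      rfl
  obtain ⟨t, ht⟩ := key n
  show List.rec (motive := fun _ => List ℕ) [] (fun a _ _ => (Nat.mul c a) :: pw c n) (pw c n) = _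
  rw [ht]
  show Nat.mul c (c ^ n) :: _ = _
  rw [pow_succ']
  rfl

theorem vrG_val (a b B : ℕ) (l : List ℤ) : ∀ m : ℕ, l.length ≤ m + 1 →
    (vrG a b B l (pw (1 + 2 ^ B) m)).val =
      homP (R := ℤ) m l (a + b * 2 ^ B) (1 + 2 ^ B) := by
  induction l with
  | nil => intro m _; rfl
  | cons g l ih =>
    intro m hm
    cases m with
    | zero =>
      have hl : l = [] := by
        simp only [List.length_cons] at hm
        exact List.length_eq_zero_iff.mp (by omega)
      subst hl
      show (sadd (ofZ g 1) (mulG a b B ⟨false, 0⟩)).val = _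
      rw [sadd_val, ofZ_val, mulG_val, zero_val]
      simp [homP]
    | succ m =>
      simp only [List.length_cons] at hm
      rw [pw_succ]
      show (sadd (ofZ g ((1 + 2 ^ B) ^ (m + 1))) (mulG a b B (vrG a b B l (pw (1 + 2 ^ B) m)))).val = _
      rw [sadd_val, ofZ_val, mulG_val, ih m (by omega)]
      show _ = ((g : ℤ) : ℤ) * (1 + 2 ^ B) ^ (m + 1) +
        (a + b * 2 ^ B) * homP (R := ℤ) m l (a + b * 2 ^ B) (1 + 2 ^ B)
      push_cast
      ring

theorem homP_smul {R : Type} [CommRing R] (k : ℤ) (l : List ℤ) (A D : R) : ∀ m : ℕ,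
    homP m (l.map (fun c => k * c)) A D = (k : R) * homP m l A D := by
  induction l with
  | nil => intro m; simp [homP]
  | cons g l ih =>
    intro m
    simp only [List.map_cons, homP, ih]
    push_cast
    ring

theorem homP_add {R : Type} [CommRing R] (A D : R) (p : List ℤ) : ∀ (q : List ℤ) (m : ℕ),
    homP m (addP p q) A D = homP m p A D + homP m q A D := by
  induction p with
  | nil => intro q m; simp [homP, addP]
  | cons a p ih =>
    intro q m
    cases q with
    | nil => simp [homP, addP]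
    | cons b q =>
      simp only [addP, homP, ih]
      push_cast
      ring

theorem duG_aux (F : List ℤ → ℤ) (hF : ∀ (k : ℕ) l, F (l.map (fun c => (k : ℤ) * c)) = k * F l)
    (G : List (List ℤ)) : ∀ (V : List SM) (j : ℕ), V.map SM.val = G.map F →
    (duG V j).map SM.val = (derT j G).map F := by
  induction G with
  | nil =>
    intro V j h
    have hV : V = [] := by simpa using h
    subst hV
    rfl
  | cons l G ih =>
    intro V j h
    cases V with
    | nil => simp at h
    | cons v V =>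
      simp only [List.map_cons, List.cons.injEq] at h
      show (smulN j v).val :: (duG V (Nat.succ j)).map SM.val =
        F (l.map (fun c => (j : ℤ) * c)) :: (derT (j + 1) G).map F
      rw [smulN_val, h.1, hF, ih V (j + 1) h.2]

theorem row_val (a : ℕ) (l : List ℤ) :
    (List.rec (motive := fun _ => SM) ⟨false, 0⟩
      (fun g _ jh => sadd (ofZ g 1) (smulN a jh)) l : SM).val = evZ l a := by
  induction l with
  | nil => rfl
  | cons g l ih =>
    show (sadd (ofZ g 1) (smulN a (List.rec (motive := fun _ => SM) ⟨false, 0⟩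
      (fun g _ jh => sadd (ofZ g 1) (smulN a jh)) l : SM))).val = g + a * evZ l a
    rw [sadd_val, ofZ_val, smulN_val, ih]
    push_cast
    ring

end G1a

open G1a

theorem vsG_rows {B m : ℕ} {G : List (List ℤ)} (hl : ∀ l ∈ G, l.length ≤ m + 1) (a b : ℕ) :
    RowsOf B m G a b (vsG B (pw (1 + 2 ^ B) m) G a b) := by
  unfold RowsOf
  induction G with
  | nil => rfl
  | cons l G ih =>
    show (vrG a b B l (pw (1 + 2 ^ B) m)).val :: (vsG B (pw (1 + 2 ^ B) m) G a b).map SM.val =
      homP (R := ℤ) m l (a + b * 2 ^ B) (1 + 2 ^ B) ::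
        G.map (fun l => homP (R := ℤ) m l (a + b * 2 ^ B) (1 + 2 ^ B))
    rw [vrG_val a b B l m (hl l (by simp)), ih (fun l' hl' => hl l' (by simp [hl']))]

theorem duG_rows {B m a b : ℕ} {G : List (List ℤ)} {V : List SM} (h : RowsOf B m G a b V) :
    RowsOf B m (dU G) a b (duG V.tail 1) := by
  unfold RowsOf at h ⊢
  unfold dU
  refine duG_aux (fun l => homP (R := ℤ) m l (a + b * 2 ^ B) (1 + 2 ^ B)) ?_ G.tail V.tail 1 ?_
  · intro k l
    have := homP_smul (R := ℤ) (k : ℤ) l (a + b * 2 ^ B) (1 + 2 ^ B) m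
    simpa using this
  · rw [List.map_tail, List.map_tail, h]

theorem atG_rows (B : ℕ) (G : List (List ℤ)) (t a b : ℕ) :
    RowsOf B 0 (atT G (t : ℤ)) a b (atG G t) := by
  unfold RowsOf
  induction G with
  | nil => rfl
  | cons l G ih =>
    show (List.rec (motive := fun _ => SM) ⟨false, 0⟩
      (fun g _ jh => sadd (ofZ g 1) (smulN t jh)) l : SM).val :: (atG G t).map SM.val =
      homP (R := ℤ) 0 [evZ l (t : ℤ)] (a + b * 2 ^ B) (1 + 2 ^ B) ::
        (atT G (t : ℤ)).map (fun l => homP (R := ℤ) 0 l (a + b * 2 ^ B) (1 + 2 ^ B))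
    rw [row_val, ih]
    simp [homP]

theorem horY_val {B m a b y : ℕ} {H : List (List ℤ)} {V : List SM} (h : RowsOf B m H a b V)
    (hl : ∀ l ∈ H, l.length ≤ m + 1) :
    (horY y V).val = homP (R := ℤ) m (rowY y H) (a + b * 2 ^ B) (1 + 2 ^ B) := by
  unfold RowsOf at h
  clear hl
  induction H generalizing V with
  | nil =>
    have hV : V = [] := by simpa using h
    subst hV
    rfl
  | cons l H ih =>
    cases V with
    | nil => simp at h
    | cons v V =>
      simp only [List.map_cons, List.cons.injEq] at h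
      show (sadd v (smulN y (horY y V))).val =
        homP (R := ℤ) m (addP l (smulP (y : ℤ) (rowY y H))) (a + b * 2 ^ B) (1 + 2 ^ B)
      rw [sadd_val, smulN_val, ih h.2, homP_add, smulP, homP_smul, h.1]
      simp

end Oct
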