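import Pool.Agent.helper70.M8.J5a
import Pool.Agent.helper70.M8.J3b
import Pool.Agent.helper70.M9.Rows
import Pool.Agent.helper70.M9.G1a
import Pool.Agent.helper70.M9.G1b
import Pool.Agent.helper70.M9.G2a

set_option autoImplicit false

/-!
# [OCT9-G2b] soundness of the elementary tests (signed layout)

author: helper55
-/

open MvPolynomial Set

namespace Oct

namespace G2b

/-- table with sign -/
def sT (σ : Bool) (G : List (List ℤ)) : List (List ℤ) := if σ then G else negT G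

theorem sizeOK_sT {B m n : ℕ} {G : List (List ℤ)} {tm um : ℕ} (σ : Bool)
    (hs : sizeOK B m n G tm um = true) : sizeOK B m n (sT σ G) tm um = true := by
  cases σ with
  | true => simpa [sT] using hs
  | false => simpa [sT] using (sizeOK_neg B m n G tm um).trans hs

theorem pos_of_sT (G : List (List ℤ)) (σ : Bool) (t u : ℝ) (h : 1 ≤ evT (sT σ G) t u) :
    0 < sg σ * evT G t u := by
  cases σ with
  | true =>
      simp only [sT, if_true] at h
      simp only [sg, if_true, one_mul]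
      linarith
  | false =>
      simp only [sT, Bool.false_eq_true, if_false] at h
      rw [evT_neg] at h
      simp only [sg, Bool.false_eq_true, if_false]
      linarith

theorem homP_neg {R : Type} [CommRing R] (l : List ℤ) (A D : R) :
    ∀ m : ℕ, homP m (l.map (fun c => -c)) A D = -homP m l A D := by
  induction l with
  | nil => intro m; simp [homP]
  | cons g l ih =>
    intro m
    rw [List.map_cons]
    simp only [homP]
    rw [ih]
    push_cast
    ring

theorem homT_neg {R : Type} [CommRing R] (m : ℕ) (G : List (List ℤ)) (A D A' D' : R) :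
    ∀ n : ℕ, homT m n (negT G) A D A' D' = -homT m n G A D A' D' := by
  unfold negT
  induction G with
  | nil => intro n; simp [homT]
  | cons l G ih =>
    intro n
    rw [List.map_cons]
    simp only [homT]
    rw [ih, homP_neg]
    ring

theorem homT_sT {R : Type} [CommRing R] (σ : Bool) (m n : ℕ) (G : List (List ℤ)) (A D A' D' : R) :
    homT m n (sT σ G) A D A' D' =
      if σ then homT m n G A D A' D' else -homT m n G A D A' D' := by
  cases σ with
  | true => simp [sT]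
  | false => simp [sT, homT_neg]

theorem sizeOK_len {B m n : ℕ} {G : List (List ℤ)} {tm um : ℕ}
    (hs : sizeOK B m n G tm um = true) :
    G.length ≤ n + 1 ∧ (∀ l ∈ G, l.length ≤ m + 1) ∧
      2 ^ (m + n) * (absT G tm um + 1) < 2 ^ (B - 1) ∧ 1 ≤ B ∧ 1 ≤ um ∧ 1 ≤ tm := by
  unfold sizeOK at hs
  simp only [Bool.and_eq_true, decide_eq_true_eq, List.all_eq_true] at hs
  obtain ⟨⟨⟨⟨⟨h1, h2⟩, h3⟩, h4⟩, h5⟩, h6⟩ := hs
  exact ⟨h1, h2, h3, h4, h5, h6⟩

theorem abs_nat_add (lo hi um : ℕ) (hlo : lo ≤ um) (hhi : hi ≤ um) :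
    |(lo : ℤ)| + |(hi : ℤ)| ≤ 2 * (um : ℤ) := by
  rw [abs_of_nonneg (Int.natCast_nonneg lo), abs_of_nonneg (Int.natCast_nonneg hi)]
  omega

/-! ### the polynomial `∑ⱼ yʲ G[j]` -/

theorem evP_addP (x : ℝ) : ∀ p q : List ℤ, evP (addP p q) x = evP p x + evP q x := by
  intro p
  induction p with
  | nil => intro q; simp [addP, evP]
  | cons a p ih =>
    intro q
    cases q with
    | nil => simp [addP, evP]
    | cons b q =>
      rw [addP, J3b_aux.evP_cons, J3b_aux.evP_cons, J3b_aux.evP_cons, ih]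
      push_cast
      ring

theorem evP_smulP (k : ℤ) (l : List ℤ) (x : ℝ) : evP (smulP k l) x = (k : ℝ) * evP l x :=
  J3b_aux.evP_smul k l x

theorem evP_rowY (y : ℤ) (t : ℝ) (G : List (List ℤ)) : evP (rowY y G) t = evT G t y := by
  induction G with
  | nil => simp [rowY, evT, evP]
  | cons l G ih =>
    have e1 : rowY y (l :: G) = addP l (smulP y (rowY y G)) := rfl
    rw [e1, evP_addP, evP_smulP, ih, J3b_aux.evT_cons]

theorem length_addP : ∀ p q : List ℤ, (addP p q).length = max p.length q.length := by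
  intro p
  induction p with
  | nil => intro q; simp [addP]
  | cons a p ih =>
    intro q
    cases q with
    | nil => simp [addP]
    | cons b q => simp [addP, ih]

theorem length_rowY {N : ℕ} (y : ℤ) (G : List (List ℤ)) (h : ∀ l ∈ G, l.length ≤ N) :
    (rowY y G).length ≤ N := by
  induction G with
  | nil => simp [rowY]
  | cons l G ih =>
    have e1 : rowY y (l :: G) = addP l (smulP y (rowY y G)) := rfl
    rw [e1, length_addP]
    refine max_le (h l (by simp)) ?_
    rw [smulP, List.length_map]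
    exact ih fun l' hl' => h l' (by simp [hl'])

theorem absP_cons (c : ℤ) (l : List ℤ) (x : ℕ) : absP (c :: l) x = c.natAbs + x * absP l x := rfl

theorem absT_cons (l : List ℤ) (G : List (List ℤ)) (t u : ℕ) :
    absT (l :: G) t u = absP l t + u * absT G t u := rfl

theorem absP_addP (x : ℕ) : ∀ p q : List ℤ, absP (addP p q) x ≤ absP p x + absP q x := by
  intro p
  induction p with
  | nil => intro q; simp [addP, absP]
  | cons a p ih =>
    intro q
    cases q with
    | nil => simp [addP, absP]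
    | cons b q =>
      rw [addP, absP_cons, absP_cons, absP_cons]
      have h1 := Int.natAbs_add_le a b
      have h2 := Nat.mul_le_mul_left x (ih q)
      rw [Nat.mul_add] at h2
      omega

theorem absP_smulP (k : ℤ) (l : List ℤ) (x : ℕ) : absP (smulP k l) x = k.natAbs * absP l x := by
  induction l with
  | nil => simp [smulP, absP]
  | cons c l ih =>
    have e1 : smulP k (c :: l) = (k * c) :: smulP k l := rfl
    rw [e1, absP_cons, absP_cons, ih, Int.natAbs_mul]
    ring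

theorem absP_rowY {y um : ℕ} (hy : y ≤ um) (t : ℕ) (G : List (List ℤ)) :
    absP (rowY (y : ℤ) G) t ≤ absT G t um := by
  induction G with
  | nil => simp [rowY, absP, absT]
  | cons l G ih =>
    have e1 : rowY (y : ℤ) (l :: G) = addP l (smulP y (rowY y G)) := rfl
    rw [e1, absT_cons]
    refine (absP_addP t _ _).trans ?_
    rw [absP_smulP, Int.natAbs_natCast]
    exact Nat.add_le_add_left (Nat.mul_le_mul hy ih) _

theorem sizeOK_rowY {B m n : ℕ} {H : List (List ℤ)} {tm um y : ℕ}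
    (hs : sizeOK B m n H tm um = true) (hy : y ≤ um) :
    sizeOK B m 0 [rowY (y : ℤ) H] tm um = true := by
  obtain ⟨h1, h2, h3, h4, h5, h6⟩ := sizeOK_len hs
  unfold sizeOK
  simp only [Bool.and_eq_true, decide_eq_true_eq, List.all_eq_true]
  refine ⟨⟨⟨⟨⟨by simp, ?_⟩, ?_⟩, h4⟩, h5⟩, h6⟩
  · intro l hl
    rw [List.mem_singleton] at hl
    rw [hl]
    exact length_rowY _ _ h2
  · refine lt_of_le_of_lt ?_ h3
    have h7 : absT [rowY (y : ℤ) H] tm um = absP (rowY (y : ℤ) H) tm := by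
      rw [absT_cons]
      simp [absT]
    rw [h7]
    exact Nat.mul_le_mul (Nat.pow_le_pow_right (by norm_num) (by omega))
      (Nat.add_le_add_right (absP_rowY hy tm H) 1)

theorem homT_single {R : Type} [CommRing R] (m : ℕ) (l : List ℤ) (A D A' D' : R) :
    homT m 0 [l] A D A' D' = homP m l A D := by
  simp [homT]

theorem evT_single (l : List ℤ) (t u : ℝ) : evT [l] t u = evP l t := by
  simp [evT]

theorem homP_zero_evP (l : List ℤ) (D : ℤ) : ((homP (R := ℤ) 0 l 0 D : ℤ) : ℝ) = evP l 0 := by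
  cases l with
  | nil => simp [homP, evP]
  | cons g l => simp [homP, evP]

end G2b

open G2b

theorem tst2_sound {B m n : ℕ} {H : List (List ℤ)} {tm um : ℕ} (hs : sizeOK B m n H tm um = true)
    {a b lo hi : ℕ} (ha : a ≤ tm) (hb : b ≤ tm) (hlo : lo ≤ um) (hhi : hi ≤ um) {σ : Bool}
    {W : List SM}
    (hW : (horG lo hi (B * (m + 1)) W).val =
      homT (R := ℤ) m n H (a + b * 2 ^ B) (1 + 2 ^ B) (lo + hi * 2 ^ (B * (m + 1)))
        (1 + 1 * 2 ^ (B * (m + 1))))
    (h : tst2 (kcOf B m n) W σ lo hi = true) :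
    ∀ t ∈ Icc (a : ℝ) b, ∀ u ∈ Icc (lo : ℝ) hi, 0 < sg σ * evT H t u := by
  obtain ⟨x, hx, hm⟩ := tstG_sound (show tstG ((1 + 2 ^ B) ^ m * (1 + 2 ^ (B * (m + 1))) ^ n)
    (mask B ((m + 1) * (n + 1))) σ (horG lo hi (B * (m + 1)) W) = true from h)
  have hs' := sizeOK_sT σ hs
  obtain ⟨hn, hm', -⟩ := sizeOK_len hs'
  have hx' : (x : ℤ) = homT (R := ℤ) m n (sT σ H) (a + b * 2 ^ B) (1 + 2 ^ B)
      ((lo : ℤ) + (hi : ℤ) * 2 ^ (B * (m + 1))) (1 + 1 * 2 ^ (B * (m + 1)))
      - (1 + 2 ^ B) ^ m * (1 + 1 * 2 ^ (B * (m + 1))) ^ n := by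
    rw [hx, homT_sT, hW]
    push_cast
    rw [one_mul]
  have key := coreG hs' ha hb (p0 := lo) (p1 := hi) (q0 := 1) (q1 := 1)
    (abs_nat_add lo hi um hlo hhi) (by norm_num) hx' hm
  have h1 := pos_box hn hm' (a := a) (b := b) (lo := lo) (hi := hi) (by
    intro s w hs0 hw
    have := key s w hs0 hw
    simpa using this)
  intro t ht u hu
  exact pos_of_sT H σ t u (h1 t ht u hu)

theorem tst1_sound {B m n : ℕ} {H : List (List ℤ)} {tm um : ℕ} (hs : sizeOK B m n H tm um = true)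
    {a b y : ℕ} (ha : a ≤ tm) (hb : b ≤ tm) (hy : y ≤ um) {σ : Bool} {V : List SM}
    (hV : RowsOf B m H a b V) (h : tst1 (kcOf B m n) V σ y = true) :
    ∀ t ∈ Icc (a : ℝ) b, 0 < sg σ * evT H t y := by
  obtain ⟨x, hx, hm⟩ := tstG_sound (show tstG ((1 + 2 ^ B) ^ m) (mask B (m + 1)) σ
    (horY y V) = true from h)
  obtain ⟨-, hl, -⟩ := sizeOK_len hs
  have hs1 := sizeOK_rowY hs hy
  have hs' := sizeOK_sT σ hs1
  obtain ⟨hn, hm', -, -, hum, -⟩ := sizeOK_len hs'
  have hx' : (x : ℤ) = homT (R := ℤ) m 0 (sT σ [rowY (y : ℤ) H]) (a + b * 2 ^ B) (1 + 2 ^ B)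
      (0 + 0 * 2 ^ (B * (m + 1))) (1 + 1 * 2 ^ (B * (m + 1)))
      - (1 + 2 ^ B) ^ m * (1 + 1 * 2 ^ (B * (m + 1))) ^ 0 := by
    rw [hx, homT_sT, homT_single, horY_val hV hl]
    push_cast
    rw [pow_zero, mul_one]
  have hm0 : Nat.land x (mask B ((m + 1) * (0 + 1))) = 0 := by
    rw [zero_add, mul_one]
    exact hm
  have key := coreG hs' ha hb (p0 := 0) (p1 := 0) (q0 := 1) (q1 := 1)
    (by simp) (by norm_num) hx' hm0
  have h1 := pos_box hn hm' (a := a) (b := b) (lo := 0) (hi := 0) (by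
    intro s w hs0 hw
    have := key s w hs0 hw
    simpa using this)
  intro t ht
  have h2 := pos_of_sT [rowY (y : ℤ) H] σ t 0 (h1 t ht 0 ⟨le_rfl, le_rfl⟩)
  rw [evT_single, evP_rowY] at h2
  exact_mod_cast h2

theorem tst0_sound {B m n : ℕ} {H : List (List ℤ)} {um : ℕ} (hs : sizeOK B 0 n H 1 um = true)
    {lo hi : ℕ} (hlo : lo ≤ um) (hhi : hi ≤ um) {σ : Bool} {A : List SM}
    (hA : RowsOf B 0 H 0 0 A) (h : tst0 (kcOf B m n) A σ lo hi = true) :
    ∀ u ∈ Icc (lo : ℝ) hi, 0 < sg σ * evT H 0 u := by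
  have hB : B * (0 + 1) = B := by rw [zero_add, mul_one]
  obtain ⟨hn0, -⟩ := sizeOK_len hs
  have hval := horG_zip_val (lo := lo) (hi := hi) hA hn0
  have h' : tst2 (kcOf B 0 n) (zipG (B * (0 + 1)) A n) σ lo hi = true := by
    have h1 : tstG ((1 + 2 ^ B) ^ n) (mask B (n + 1)) σ (horG lo hi B (zipG B A n)) = true := h
    show tstG ((1 + 2 ^ B) ^ 0 * (1 + 2 ^ (B * (0 + 1))) ^ n) (mask B ((0 + 1) * (n + 1))) σ
      (horG lo hi (B * (0 + 1)) (zipG (B * (0 + 1)) A n)) = true
    rw [hB, pow_zero, one_mul, zero_add, one_mul]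
    exact h1
  have h2 := tst2_sound hs (a := 0) (b := 0) (Nat.zero_le _) (Nat.zero_le _) hlo hhi
    (by exact_mod_cast hval) h'
  intro u hu
  exact h2 0 (by simp) u hu

theorem tstP_sound {B y : ℕ} {H : List (List ℤ)} (hl : ∀ l ∈ H, l.length ≤ 1) {σ : Bool}
    {A : List SM} (hA : RowsOf B 0 H 0 0 A) (h : tstP A σ y = true) :
    0 < sg σ * evT H 0 y := by
  obtain ⟨x, hx, -⟩ := tstG_sound (show tstG 1 0 σ (horY y A) = true from h)
  have hv := horY_val (y := y) hA (by simpa using hl)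
  have hv' : (((horY y A).val : ℤ) : ℝ) = evT H 0 y := by
    rw [hv]
    have e : (((0 : ℕ) : ℤ) + ((0 : ℕ) : ℤ) * 2 ^ B) = 0 := by simp
    rw [e, homP_zero_evP, evP_rowY]
    norm_num
  have hx0 : (0 : ℤ) ≤ (x : ℤ) := Int.natCast_nonneg x
  rw [hx] at hx0
  cases σ with
  | true =>
    simp only [if_true] at hx0
    have h1 : (1 : ℤ) ≤ (horY y A).val := by
      have : ((1 : ℕ) : ℤ) = 1 := rfl
      omega
    have h2 : (1 : ℝ) ≤ (((horY y A).val : ℤ) : ℝ) := by exact_mod_cast h1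
    rw [hv'] at h2
    simp only [sg, if_true, one_mul]
    linarith
  | false =>
    simp only [Bool.false_eq_true, if_false] at hx0
    have h1 : (horY y A).val ≤ -1 := by
      have : ((1 : ℕ) : ℤ) = 1 := rfl
      omega
    have h2 : (((horY y A).val : ℤ) : ℝ) ≤ -1 := by exact_mod_cast h1
    rw [hv'] at h2
    simp only [sg, Bool.false_eq_true, if_false]
    linarith

theorem capG_sound {B m n : ℕ} {G : List (List ℤ)} {tm um : ℕ} (hs : sizeOK B m n G tm um = true)
    {a b L H : ℕ} (ha : a ≤ tm) (hb : b ≤ tm) {s : Bool} {V : List SM} (hV : RowsOf B m G a b V)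
    (h : capG (kcOf B m n) V um s L H = true) :
    ∀ t ∈ Icc (a : ℝ) b, (∀ u : ℝ, (H : ℝ) ≤ u → 0 < sg s * evT G t u) ∧
      ∀ u : ℝ, u ≤ L → 0 < sg s * evT G t u := by
  unfold capG at h
  simp only [Bool.and_eq_true, Nat.ble_eq] at h
  obtain ⟨⟨⟨hH, hL⟩, h1⟩, h2⟩ := h
  obtain ⟨x, hx, hxm⟩ := tstG_sound (show tstG ((1 + 2 ^ B) ^ m) (mask B ((m + 1) * (n + 1))) s
    (horG H 1 (B * (m + 1)) V) = true from h1)
  obtain ⟨y, hy, hym⟩ := tstG_sound (show tstG ((1 + 2 ^ B) ^ m) (mask B ((m + 1) * (n + 1))) s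
    (horL L (B * (m + 1)) V) = true from h2)
  have hs' := sizeOK_sT s hs
  obtain ⟨hn, hm', -, -, hum, -⟩ := sizeOK_len hs'
  obtain ⟨hn0, -⟩ := sizeOK_len hs
  have hx' : (x : ℤ) = homT (R := ℤ) m n (sT s G) (a + b * 2 ^ B) (1 + 2 ^ B)
      ((H : ℤ) + 1 * 2 ^ (B * (m + 1))) (1 + 0 * 2 ^ (B * (m + 1)))
      - (1 + 2 ^ B) ^ m * (1 + 0 * 2 ^ (B * (m + 1))) ^ n := by
    rw [hx, homT_sT, horG_val hV hn0]
    push_cast
    rw [zero_mul, add_zero, one_pow, mul_one]
  have hy' : (y : ℤ) = homT (R := ℤ) m n (sT s G) (a + b * 2 ^ B) (1 + 2 ^ B)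
      ((L : ℤ) + (-1) * 2 ^ (B * (m + 1))) (1 + 0 * 2 ^ (B * (m + 1)))
      - (1 + 2 ^ B) ^ m * (1 + 0 * 2 ^ (B * (m + 1))) ^ n := by
    rw [hy, homT_sT, horL_val hV hn0]
    push_cast
    rw [zero_mul, add_zero, one_pow, mul_one]
  have key1 := coreG hs' ha hb (p0 := H) (p1 := 1) (q0 := 1) (q1 := 0)
    (by rw [abs_of_nonneg (Int.natCast_nonneg H), abs_one]; omega) (by norm_num) hx' hxm
  have key2 := coreG hs' ha hb (p0 := L) (p1 := -1) (q0 := 1) (q1 := 0)
    (by rw [abs_of_nonneg (Int.natCast_nonneg L), abs_neg, abs_one]; omega) (by norm_num) hy' hym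
  have h3 := pos_top hn hm' (a := a) (b := b) (H := H) (by
    intro s w hs0 hw
    have := key1 s w hs0 hw
    simpa using this)
  have h4 := pos_bot hn hm' (a := a) (b := b) (L := L) (by
    intro s w hs0 hw
    have := key2 s w hs0 hw
    simpa [sub_eq_add_neg] using this)
  intro t ht
  exact ⟨fun u hu => pos_of_sT G s t u (h3 t ht u hu), fun u hu => pos_of_sT G s t u (h4 t ht u hu)⟩

end Oct
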