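import Pool.Agent.helper70.M8.Fin
import Pool.Agent.helper70.M9.G4

set_option autoImplicit false

/-!
# From the light integer certificate to the arrangement
-/

open MvPolynomial Set

namespace Oct

/-- a piece of the analytic certificate: columns with the same chart -/
theorem ana_pieceG {d B m n tm um : ℕ} {tab : List (List ℤ)} {ch : Chart}
    {G DT : List (List ℤ)} {o : ℕ} {sp : Bool} (htab : tabOK d tab) (hd : Even d)
    (hG : G = compC d ch tab) (hDT : DT = dT G) (ho : o = tn ch.o)
    (hc : ctxG B m n ch G tm um = true)
    (hp : 0 < sg sp * (((tab.getD 0 []).getD 0 0 : ℤ) : ℝ)) {L : List Column}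
    (h : L.all (colG (kcOf B m n) ch G DT o tm um sp) = true) :
    ∀ c ∈ L, ColOK (polyOf d tab) sp c := by
  intro c hcL
  subst ho
  refine colG_sound (polyOf_homog d tab) hd ?_ hDT hc ?_ (List.all_eq_true.1 h c hcL)
  · intro t u
    rw [hG]
    exact compC_sound htab ch t u
  · rw [eval_pole]
    exact hp

end Oct
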